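import Mathlib
import Pool.Agent.R945.LD.OneB

set_option autoImplicit false

namespace Pool.Agent.Results.MP_c81705_nt.QOneModFour

open Pool.Agent.R945.LD

theorem result (p : ℕ) [Fact p.Prime] (hp : p % 4 = 1) (R : Type) [CommRing R] (x y z w : R) :
      Matrix.det (Matrix.of fun j k : Fin ((p - 1) / 2 + 1) =>
        x + (legendreSym p ((j : ℤ) + (k : ℤ)) : R)
          + (legendreSym p ((j : ℤ) - (k : ℤ)) : R)
          + (legendreSym p (j : ℤ) : R) * y
          + (legendreSym p (k : ℤ) : R) * z
          + (legendreSym p ((j : ℤ) * (k : ℤ)) : R) * w) =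
      (legendreSym p 2 : R) * (p : R) ^ ((p + 3) / 4) * x := by
  have hpp : p.Prime := Fact.out
  obtain ⟨m, hm⟩ : ∃ m, p = 2 * m + 1 := ⟨p / 2, by omega⟩
  have hp5 : 5 ≤ p := by
    have := hpp.two_le
    omega
  have hm1 : (p - 1) / 2 = m := by omega
  have hq5 : (p + 3) / 4 = (m / 2 - 1) + 2 := by omega
  have hL : ∀ a : ℤ, legendreSym p a = q p (a : ZMod p) := fun a => rfl
  rw [hm1, hq5]
  have e : (Matrix.of fun j k : Fin (m + 1) =>
        x + (legendreSym p ((j : ℤ) + (k : ℤ)) : R)
          + (legendreSym p ((j : ℤ) - (k : ℤ)) : R)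
          + (legendreSym p (j : ℤ) : R) * y
          + (legendreSym p (k : ℤ) : R) * z
          + (legendreSym p ((j : ℤ) * (k : ℤ)) : R) * w) =
      bd x (fun k => (z + 2) * xv p m R k + x) (fun j => (y + 2) * xv p m R j + x)
      (Matrix.of fun j k : Fin m => x + Bm p m R j k + xv p m R j * y + xv p m R k * z
      + xv p m R j * xv p m R k * w) := by
    apply eq_bd
    · simp [hL, q_zero]
    · intro k
      simp only [Matrix.of_apply, hL, xv, Fin.val_zero, Fin.val_succ]
      push_cast
      rw [zero_add, zero_sub, q_even hp, q_zero, zero_mul, q_zero]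
      simp only [J]
      push_cast
      ring
    · intro j
      simp only [Matrix.of_apply, hL, xv, Fin.val_zero, Fin.val_succ]
      push_cast
      rw [add_zero, sub_zero, q_zero, mul_zero, q_zero]
      simp only [J]
      push_cast
      ring
    · intro j k
      simp only [Matrix.of_apply, hL, xv, Fin.val_succ, Bm]
      push_cast
      rw [q_mul]
      simp only [J]
      push_cast
      ring
  rw [e, det_big hp hm, ← Bm_cast, det_B hp hm]
  have h2 : legendreSym p 2 = - (-1) ^ (m / 2 - 1) := by
    rw [legendreSym.at_two (by omega : p ≠ 2), ZMod.χ₈_nat_eq_if_mod_eight, if_neg (by omega)]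
    have hm4 : 2 ≤ m := by omega
    rcases Nat.even_or_odd (m / 2 - 1) with h | h
    · rw [if_neg (by obtain ⟨r, hr⟩ := h; omega), h.neg_one_pow]
    · rw [if_pos (by obtain ⟨r, hr⟩ := h; omega), h.neg_one_pow]; norm_num
  rw [h2]
  push_cast
  rw [neg_pow (p : R) (m / 2 - 1), pow_add]
  ring

end Pool.Agent.Results.MP_c81705_nt.QOneModFour
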