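import Mathlib
import Pool.Agent.R945.LD.OneB

set_option autoImplicit false

namespace Pool.Agent.Results.MP_c81705_nt.QTwo

open Pool.Agent.R945.LD

theorem result (p : ℕ) [Fact p.Prime] (hp : p % 4 = 1) :
    ∃ c : ℤ, ∀ (R : Type) [CommRing R] (y z : R),
      Matrix.det (Matrix.of fun j k : Fin ((p - 1) / 2 + 1) =>
        (legendreSym p ((j : ℤ) + (k : ℤ)) : R)
          - (legendreSym p ((j : ℤ) - (k : ℤ)) : R)
          + (legendreSym p (j : ℤ) : R) * y
          + (legendreSym p (k : ℤ) : R) * z) =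
      4 * (p : R) ^ ((p - 5) / 4) * (c : R) * y * z := by
  have hpp : p.Prime := Fact.out
  obtain ⟨m, hm⟩ : ∃ m, p = 2 * m + 1 := ⟨p / 2, by omega⟩
  have hm1 : (p - 1) / 2 = m := by omega
  have hq5 : (p - 5) / 4 = m / 2 - 1 := by omega
  have hL : ∀ a : ℤ, legendreSym p a = q p (a : ZMod p) := fun a => rfl
  obtain ⟨c, hc⟩ := exists_c hp hm
  refine ⟨c, ?_⟩
  intro R _ y z
  rw [hm1, hq5]
  have h0 : ((0 : ℕ) : ℤ) = 0 := rfl
  have e : (Matrix.of fun j k : Fin (m + 1) =>
        (legendreSym p ((j : ℤ) + (k : ℤ)) : R)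
          - (legendreSym p ((j : ℤ) - (k : ℤ)) : R)
          + (legendreSym p (j : ℤ) : R) * y
          + (legendreSym p (k : ℤ) : R) * z) =
      bd 0 (fun k => z * xv p m R k + 0) (fun j => y * xv p m R j + 0)
        (Matrix.of fun j k => Am p m R j k + y * xv p m R j + z * xv p m R k + 0) := by
    apply eq_bd
    · simp [hL, q_zero]
    · intro k
      simp only [Matrix.of_apply, hL, xv, Fin.val_zero, Fin.val_succ]
      push_cast
      rw [zero_add, zero_sub, q_even hp, q_zero]
      simp only [J]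
      push_cast
      ring
    · intro j
      simp only [Matrix.of_apply, hL, xv, Fin.val_zero, Fin.val_succ]
      push_cast
      rw [add_zero, sub_zero, q_zero]
      simp only [J]
      push_cast
      ring
    · intro j k
      simp only [Matrix.of_apply, hL, xv, Fin.val_succ, Am]
      push_cast
      simp only [J]
      ring
  rw [e, bd_elim, bd_scale]
  have hmap : (bd 0 (xv p m ℤ) (xv p m ℤ) (Am p m ℤ)).map (Int.castRingHom R) =
      bd 0 (xv p m R) (xv p m R) (Am p m R) := by
    apply eq_bd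
    · simp [bd_00]
    · intro k; simp [bd_0s, xv]
    · intro k; simp [bd_s0, xv]
    · intro j k; simp [bd_ss, Am]
  have h3 := (Int.castRingHom R).map_det (bd 0 (xv p m ℤ) (xv p m ℤ) (Am p m ℤ))
  rw [RingHom.mapMatrix_apply, hmap, hc] at h3
  rw [← h3]
  simp
  ring

end Pool.Agent.Results.MP_c81705_nt.QTwo
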